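import Pool.Agent.W25.UN.Stm
import Pool.Agent.H361R2.T1

/-!
# The square of the sieve weight against an equidistributed weight
-/

set_option autoImplicit false
set_option linter.all false

namespace Pool.Agent.W21.UN

open Finset Pool.Agent.H410R2 Pool.Agent.H361R2 Pool.Agent.W25.UN

section
variable {ι J : Type} [Fintype ι] [DecidableEq ι] [Fintype J] [DecidableEq J]

theorem g1_eq (p : ℕ) (a b : Option J) : g1 p a b = G1 p a b := by
  rcases a with _ | j <;> rcases b with _ | l <;> rfl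

omit [DecidableEq ι] [Fintype J] [DecidableEq J] in
theorem pattern {pr : ι → ℕ} {L : J → ℕ → ℕ} (hS : SieveData ι J pr L 1) {S : Finset ℕ}
    {wt : ℕ → ℝ} {K Dv : ℝ}
    (hE : ∀ q : ℕ, Squarefree q → Over pr q → ∀ r : ℕ,
        |∑ n ∈ S.filter (fun n => n ≡ r [MOD q]), wt n - K / q| ≤ Dv) (ρ : ι → Option J) :
    |∑ n ∈ S, wt n * ∏ t, ind L (pr t) n (ρ t) - K * ∏ t, dn (pr t) (ρ t)| ≤ Dv := by
  classical
  set T : Finset ι := univ.filter (fun t => ρ t ≠ none) with hT
  have hpos : ∀ t ∈ T, pr t ≠ 0 := fun t _ => (hS.prime t).ne_zero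
  have hpair : Set.Pairwise (T : Set ι) (Function.onFun Nat.Coprime pr) := by
    intro s _ t _ hst
    exact (Nat.coprime_primes (hS.prime s) (hS.prime t)).2 (fun e => hst (hS.inj e))
  have hres : ∀ t : ι, ∃ r : ℕ, ∀ j, ρ t = some j → ∀ n, pr t ∣ L j n ↔ n ≡ r [MOD pr t] := by
    intro t
    rcases h : ρ t with _ | j
    · exact ⟨0, fun j hj => by cases hj⟩
    · obtain ⟨r, hr⟩ := hS.sol t j
      refine ⟨r, fun j' hj' => ?_⟩
      cases hj'
      exact hr
  choose r hr using hres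
  obtain ⟨r0, hr0⟩ := Nat.chineseRemainderOfFinset r pr T hpos hpair
  set q : ℕ := ∏ t ∈ T, pr t with hq
  have hcond : ∀ n, (∀ t ∈ T, n ≡ r0 [MOD pr t]) ↔ n ≡ r0 [MOD q] := by
    intro n
    constructor
    · intro h
      rw [Nat.modEq_iff_dvd]
      have hc : (q : ℤ) = ∏ t ∈ T, (pr t : ℤ) := by rw [hq]; push_cast; rfl
      rw [hc]
      apply Finset.prod_dvd_of_coprime
      · intro s hs t ht hst
        exact Nat.isCoprime_iff_coprime.2 (hpair hs ht hst)
      · intro t ht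
        exact Nat.modEq_iff_dvd.1 (h t ht)
    · intro h t ht
      exact h.of_dvd (Finset.dvd_prod_of_mem pr ht)
  have hprod : ∀ n, ∏ t, ind L (pr t) n (ρ t) = if n ≡ r0 [MOD q] then 1 else 0 := by
    intro n
    by_cases h : n ≡ r0 [MOD q]
    · rw [if_pos h]
      apply Finset.prod_eq_one
      intro t _
      rcases ht : ρ t with _ | j
      · rfl
      · have htT : t ∈ T := by rw [hT, mem_filter]; exact ⟨mem_univ t, by rw [ht]; simp⟩
        have h1 := (hcond n).2 h t htT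
        have h2 : pr t ∣ L j n := (hr t j ht n).2 (h1.trans (hr0 t htT))
        simp [ind, h2]
    · rw [if_neg h]
      have : ∃ t ∈ T, ¬ n ≡ r0 [MOD pr t] := by
        by_contra hc
        push Not at hc
        exact h ((hcond n).1 hc)
      obtain ⟨t, htT, ht⟩ := this
      apply Finset.prod_eq_zero (mem_univ t)
      have htT' := htT
      rw [hT, mem_filter] at htT'
      rcases hρ : ρ t with _ | j
      · exact absurd hρ htT'.2
      · have h2 : ¬ pr t ∣ L j n := by
          intro h3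
          exact ht (((hr t j hρ n).1 h3).trans (hr0 t htT).symm)
        simp [ind, h2]
  have hsum : ∑ n ∈ S, wt n * ∏ t, ind L (pr t) n (ρ t) =
      ∑ n ∈ S.filter (fun n => n ≡ r0 [MOD q]), wt n := by
    simp only [hprod, mul_ite, mul_one, mul_zero]
    rw [← Finset.sum_filter]
  have hdn : ∏ t, dn (pr t) (ρ t) = 1 / (q : ℝ) := by
    rw [hq, hT, Finset.prod_filter]
    push_cast
    rw [one_div, ← Finset.prod_inv_distrib]
    apply Finset.prod_congr rfl
    intro t _
    rcases ht : ρ t with _ | j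
    · simp [dn]
    · simp [dn]
  rw [hsum, hdn, mul_one_div]
  refine hE q ?_ ?_ r0
  · rw [hq]
    refine Finset.squarefree_prod_of_pairwise_isCoprime ?_ ?_
    · intro s hs t ht hst
      exact Nat.coprime_iff_isRelPrime.1 (hpair hs ht hst)
    · intro t _
      exact (hS.prime t).squarefree
  · intro p hp hpq
    rw [hq, hp.prime.dvd_finset_prod_iff] at hpq
    obtain ⟨t, _, ht⟩ := hpq
    exact ⟨t, ((Nat.prime_dvd_prime_iff_eq hp (hS.prime t)).1 ht).symm⟩

theorem expand {pr : ι → ℕ} {L : J → ℕ → ℕ} (hS : SieveData ι J pr L 1) {S : Finset ℕ}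
    {wt : ℕ → ℝ} {K Dv : ℝ}
    (hE : ∀ q : ℕ, Squarefree q → Over pr q → ∀ r : ℕ,
        |∑ n ∈ S.filter (fun n => n ≡ r [MOD q]), wt n - K / q| ≤ Dv)
    (cf : ι → Option J → ℝ) :
    |∑ n ∈ S, wt n * ∏ t, (∑ o, cf t o * ind L (pr t) n o) -
        K * ∏ t, (∑ o, cf t o * dn (pr t) o)| ≤ Dv * ∏ t, (∑ o, |cf t o|) := by
  have h1 : ∀ n, ∏ t, (∑ o, cf t o * ind L (pr t) n o) =
      ∑ ρ : ι → Option J, (∏ t, cf t (ρ t)) * ∏ t, ind L (pr t) n (ρ t) := by
    intro n
    rw [Finset.prod_univ_sum, Fintype.piFinset_univ]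
    apply Finset.sum_congr rfl
    intro ρ _
    rw [Finset.prod_mul_distrib]
  have h2 : ∏ t, (∑ o, cf t o * dn (pr t) o) =
      ∑ ρ : ι → Option J, (∏ t, cf t (ρ t)) * ∏ t, dn (pr t) (ρ t) := by
    rw [Finset.prod_univ_sum, Fintype.piFinset_univ]
    apply Finset.sum_congr rfl
    intro ρ _
    rw [Finset.prod_mul_distrib]
  have h3 : ∏ t, (∑ o, |cf t o|) = ∑ ρ : ι → Option J, |∏ t, cf t (ρ t)| := by
    rw [Finset.prod_univ_sum, Fintype.piFinset_univ]
    apply Finset.sum_congr rfl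
    intro ρ _
    rw [Finset.abs_prod]
  have h4 : ∑ n ∈ S, wt n * ∏ t, (∑ o, cf t o * ind L (pr t) n o) -
        K * ∏ t, (∑ o, cf t o * dn (pr t) o) =
      ∑ ρ : ι → Option J, (∏ t, cf t (ρ t)) *
        (∑ n ∈ S, wt n * ∏ t, ind L (pr t) n (ρ t) - K * ∏ t, dn (pr t) (ρ t)) := by
    rw [h2]
    simp only [h1, mul_sub, Finset.sum_sub_distrib]
    congr 1
    · simp only [Finset.mul_sum]
      rw [Finset.sum_comm]
      apply Finset.sum_congr rfl; intro ρ _
      apply Finset.sum_congr rfl; intro n _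
      ring
    · rw [Finset.mul_sum]
      apply Finset.sum_congr rfl; intro ρ _
      ring
  rw [h4, h3, Finset.mul_sum]
  refine (Finset.abs_sum_le_sum_abs _ _).trans (Finset.sum_le_sum fun ρ _ => ?_)
  rw [abs_mul, mul_comm]
  exact mul_le_mul_of_nonneg_right (pattern hS hE ρ) (abs_nonneg _)

end

open Classical in
theorem main : S1Gen := by
  intro ι J _ _ pr L hS c
  have hQ : Q1f pr c = ∑ σ : ι → Option J, ∑ τ : ι → Option J,
      c σ * c τ * ∏ t, G1 (pr t) (σ t) (τ t) := by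
    unfold Q1f
    simp only [g1_eq]
  have hgram0 : IsGram (fun σ τ : ι → Option J => ∏ t, G1 (pr t) (σ t) (τ t)) :=
    IsGram.prod univ (K := fun (t : ι) (σ τ : ι → Option J) => G1 (pr t) (σ t) (τ t))
      (fun t _ => (isGram_G1 hS t).pull (fun σ : ι → Option J => σ t))
  have hgram : IsGram (fun σ τ : ι → Option J =>
      ∏ t, (if σ t = τ t then D1 (pr t) (σ t) else 0) - ∏ t, G1 (pr t) (σ t) (τ t)) :=
    IsGram.prod_sub univ (G := fun (t : ι) (σ τ : ι → Option J) => G1 (pr t) (σ t) (τ t))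
      (D := fun (t : ι) (σ τ : ι → Option J) => if σ t = τ t then D1 (pr t) (σ t) else 0)
      (fun t _ => (isGram_G1 hS t).pull (fun σ : ι → Option J => σ t))
      (fun t _ => (isGram_D1_sub (pr t)).pull (fun σ : ι → Option J => σ t))
  have hnn := hgram.nonneg c
  have hsplit : ∑ σ : ι → Option J, ∑ τ : ι → Option J, c σ * c τ *
      (∏ t, (if σ t = τ t then D1 (pr t) (σ t) else 0) - ∏ t, G1 (pr t) (σ t) (τ t)) =
      ∑ σ, c σ ^ 2 * mulc pr (fun p => (p : ℝ)) σ -
      ∑ σ : ι → Option J, ∑ τ : ι → Option J, c σ * c τ * ∏ t, G1 (pr t) (σ t) (τ t) := by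
    rw [← Finset.sum_sub_distrib]
    apply Finset.sum_congr rfl; intro σ _
    simp only [mul_sub, Finset.sum_sub_distrib]
    congr 1
    rw [Finset.sum_eq_single σ]
    · have : ∏ t, (if σ t = σ t then D1 (pr t) (σ t) else 0) = mulc pr (fun p => (p : ℝ)) σ := by
        unfold mulc
        apply Finset.prod_congr rfl
        intro t _
        rcases σ t with _ | j <;> simp [D1]
      rw [this]; ring
    · intro τ _ hτ
      have : ∃ t, σ t ≠ τ t := by
        by_contra hc
        push Not at hc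
        exact hτ (funext fun t => (hc t).symm)
      obtain ⟨t, ht⟩ := this
      rw [Finset.prod_eq_zero (mem_univ t) (by rw [if_neg ht]), mul_zero]
    · intro h; exact absurd (mem_univ σ) h
  rw [hsplit] at hnn
  refine ⟨?_, ?_, ?_⟩
  · rw [hQ]
    exact hgram0.nonneg c
  · rw [hQ]
    linarith
  intro S wt K Dv hDv hE
  rw [hQ]
  have hexp : ∀ n, (∑ σ, c σ * hN L pr σ n) ^ 2 = ∑ σ, ∑ τ, c σ * c τ *
      ∏ t, (∑ o, cc (pr t) (σ t) (τ t) o * ind L (pr t) n o) := by
    intro n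
    rw [sq, Finset.sum_mul_sum]
    apply Finset.sum_congr rfl; intro σ _
    apply Finset.sum_congr rfl; intro τ _
    have : hN L pr σ n * hN L pr τ n =
        ∏ t, (∑ o, cc (pr t) (σ t) (τ t) o * ind L (pr t) n o) := by
      unfold hN
      rw [← Finset.prod_mul_distrib]
      apply Finset.prod_congr rfl
      intro t _
      exact hl_mul (hS.excl t · · n) _ _
    rw [← this]; ring
  have hswap : ∑ n ∈ S, wt n * (∑ σ, c σ * hN L pr σ n) ^ 2 =
      ∑ σ : ι → Option J, ∑ τ : ι → Option J, c σ * c τ *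
        ∑ n ∈ S, wt n * ∏ t, (∑ o, cc (pr t) (σ t) (τ t) o * ind L (pr t) n o) := by
    simp only [hexp, Finset.mul_sum]
    rw [Finset.sum_comm]
    apply Finset.sum_congr rfl; intro σ _
    rw [Finset.sum_comm]
    apply Finset.sum_congr rfl; intro τ _
    apply Finset.sum_congr rfl; intro n _
    ring
  have hdiff : ∑ n ∈ S, wt n * (∑ σ, c σ * hN L pr σ n) ^ 2 - K *
      ∑ σ : ι → Option J, ∑ τ : ι → Option J, c σ * c τ * ∏ t, G1 (pr t) (σ t) (τ t) =
      ∑ σ : ι → Option J, ∑ τ : ι → Option J, c σ * c τ *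
        (∑ n ∈ S, wt n * ∏ t, (∑ o, cc (pr t) (σ t) (τ t) o * ind L (pr t) n o) -
          K * ∏ t, G1 (pr t) (σ t) (τ t)) := by
    rw [hswap, Finset.mul_sum, ← Finset.sum_sub_distrib]
    apply Finset.sum_congr rfl; intro σ _
    rw [Finset.mul_sum, ← Finset.sum_sub_distrib]
    apply Finset.sum_congr rfl; intro τ _
    ring
  have hterm : ∀ σ τ : ι → Option J, |c σ * c τ *
        (∑ n ∈ S, wt n * ∏ t, (∑ o, cc (pr t) (σ t) (τ t) o * ind L (pr t) n o) -
          K * ∏ t, G1 (pr t) (σ t) (τ t))| ≤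
      Dv * ((|c σ| * mulc pr (fun p => (p : ℝ) + 1) σ) *
        (|c τ| * mulc pr (fun p => (p : ℝ) + 1) τ)) := by
    intro σ τ
    have h1 := expand hS hE (fun t o => cc (pr t) (σ t) (τ t) o)
    have h2 : ∏ t, (∑ o, |cc (pr t) (σ t) (τ t) o|) ≤ mulc pr (fun p => (p : ℝ) + 1) σ *
        mulc pr (fun p => (p : ℝ) + 1) τ := by
      unfold mulc
      rw [← Finset.prod_mul_distrib]
      apply Finset.prod_le_prod
      · intro t _
        exact Finset.sum_nonneg fun o _ => abs_nonneg _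
      · intro t _
        refine (cc_abs (hS.prime t).two_le _ _).trans (le_of_eq ?_)
        rcases σ t with _ | j <;> rcases τ t with _ | l <;> simp [w1]
    have h3 : ∏ t, (∑ o, cc (pr t) (σ t) (τ t) o * dn (pr t) o) = ∏ t, G1 (pr t) (σ t) (τ t) :=
      Finset.prod_congr rfl fun t _ => cc_dn (hS.prime t).pos _ _
    rw [h3] at h1
    rw [abs_mul, abs_mul]
    calc |c σ| * |c τ| * |∑ n ∈ S, wt n * ∏ t, (∑ o, cc (pr t) (σ t) (τ t) o * ind L (pr t) n o) -
          K * ∏ t, G1 (pr t) (σ t) (τ t)|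
        ≤ |c σ| * |c τ| * (Dv * (mulc pr (fun p => (p : ℝ) + 1) σ *
          mulc pr (fun p => (p : ℝ) + 1) τ)) :=
          mul_le_mul_of_nonneg_left (h1.trans (mul_le_mul_of_nonneg_left h2 hDv)) (by positivity)
      _ = _ := by ring
  rw [hdiff]
  calc |∑ σ : ι → Option J, ∑ τ : ι → Option J, c σ * c τ *
        (∑ n ∈ S, wt n * ∏ t, (∑ o, cc (pr t) (σ t) (τ t) o * ind L (pr t) n o) -
          K * ∏ t, G1 (pr t) (σ t) (τ t))|
      ≤ ∑ σ : ι → Option J, ∑ τ : ι → Option J, Dv * ((|c σ| * mulc pr (fun p => (p : ℝ) + 1) σ) *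
        (|c τ| * mulc pr (fun p => (p : ℝ) + 1) τ)) := by
        refine (Finset.abs_sum_le_sum_abs _ _).trans (Finset.sum_le_sum fun σ _ => ?_)
        exact (Finset.abs_sum_le_sum_abs _ _).trans (Finset.sum_le_sum fun τ _ => hterm σ τ)
    _ = Dv * (∑ σ, |c σ| * mulc pr (fun p => (p : ℝ) + 1) σ) ^ 2 := by
        rw [sq, Finset.sum_mul_sum, Finset.mul_sum]
        apply Finset.sum_congr rfl; intro σ _
        rw [Finset.mul_sum]

end Pool.Agent.W21.UN
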